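import Pool.Agent.Lib.MP_25e40f_pr.DP.Defs

/-!
# MP_25e40f_pr, stream DP, file Bub: the bubble (JOB Bub)

All kernels have values in `ENNReal` (`kmul f g x y = ∑' z, f x z * g z y`, `ksup` the supremum).
* `kmul_pK`: `G.pK p x z = 0` unless `z ∈ G.nb x` (`tsum_eq_sum`).
* `tK_le`: `T.tau_step` and `ENNReal.ofReal_add`, `ENNReal.ofReal_sum_of_nonneg`, `kmul_pK`.
* `le_kmul_tK`: the term `z = x` of the sum, `T.tau_self`.
* `kmul_assoc'`: `ENNReal.tsum_comm`, `ENNReal.tsum_mul_left/right`.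
* `bubble_le`: `(τ τ)(x,y) = ∑_z τ(x,z) τ(z,y) ≤ ∑_z (δ_{xz} + (Pτ)(x,z)) τ(z,y) = τ(x,y) + ((Pτ)τ)(x,y)`, `τ ≤ 1`
  (`T.tau_le_one`), and `(Pτ)τ = P(ττ) ≤ P(τ(τ(ττ)))` entrywise by `le_kmul_tK` (monotonicity of `kmul` in the second factor).
* `sum_sq_le`: `∑_{y ∈ Y} ofReal (τ(x,y)²) = ∑ τ(x,y) τ(y,x) ≤ (ττ)(x,x) ≤ 1 + Qt ≤ 2` (`T.tau_symm`), back to reals.
-/

set_option autoImplicit false
set_option linter.unusedSectionVars false

noncomputable section

open Finset Filter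
open scoped Classical

namespace IPC.DP

variable {V : Type} [DecidableEq V] (G : PG V)

theorem kmul_pK (p : ℝ) (f : V → V → ENNReal) (x y : V) :
    kmul (G.pK p) f x y = ∑ z ∈ G.nb x, ENNReal.ofReal p * f z y := by
  unfold kmul
  rw [tsum_eq_sum (s := G.nb x)]
  · refine Finset.sum_congr rfl fun z hz => ?_
    unfold PG.pK
    rw [if_pos hz]
  · intro z hz
    unfold PG.pK
    rw [if_neg hz, zero_mul]

theorem tK_le {p : ℝ} (h0 : 0 ≤ p) (h1 : p ≤ 1 / 2) (x y : V) :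
    G.tK p x y ≤ (if x = y then 1 else 0) + kmul (G.pK p) (G.tK p) x y := by
  have h1' : p ≤ 1 := by linarith
  have hn : ∀ z, 0 ≤ p * G.tau p z y := fun z => mul_nonneg h0 (T.tau_nonneg G h0 h1' z y)
  rw [kmul_pK]
  unfold PG.tK
  refine (ENNReal.ofReal_le_ofReal (T.tau_step G h0 h1 x y)).trans ?_
  rw [ENNReal.ofReal_add (by split_ifs <;> norm_num) (Finset.sum_nonneg fun z _ => hn z),
    ENNReal.ofReal_sum_of_nonneg fun z _ => hn z]
  refine add_le_add ?_ (Finset.sum_le_sum fun z _ => ?_)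
  · split_ifs
    · rw [ENNReal.ofReal_one]
    · rw [ENNReal.ofReal_zero]
  · rw [ENNReal.ofReal_mul h0]

theorem le_kmul_tK (p : ℝ) (f : V → V → ENNReal) (x y : V) : f x y ≤ kmul (G.tK p) f x y := by
  unfold kmul
  have h1 : G.tK p x x * f x y ≤ ∑' z, G.tK p x z * f z y :=
    ENNReal.le_tsum (f := fun z => G.tK p x z * f z y) x
  have h2 : G.tK p x x = 1 := by
    unfold PG.tK
    rw [T.tau_self, ENNReal.ofReal_one]
  rw [h2, one_mul] at h1
  exact h1

theorem kmul_assoc' (f g h : V → V → ENNReal) (x y : V) :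
    kmul (kmul f g) h x y = kmul f (kmul g h) x y := by
  unfold kmul
  have h1 : ∀ z, (∑' w, f x w * g w z) * h z y = ∑' w, f x w * (g w z * h z y) := by
    intro z
    rw [← ENNReal.tsum_mul_right]
    exact tsum_congr fun w => mul_assoc _ _ _
  have h2 : ∀ w, f x w * ∑' z, g w z * h z y = ∑' z, f x w * (g w z * h z y) := fun w =>
    ENNReal.tsum_mul_left.symm
  rw [tsum_congr h1, tsum_congr h2]
  exact ENNReal.tsum_comm

private theorem bub_mono (f : V → V → ENNReal) {g g' : V → V → ENNReal} (h : ∀ x y, g x y ≤ g' x y)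
    (x y : V) : kmul f g x y ≤ kmul f g' x y := by
  unfold kmul
  exact ENNReal.tsum_le_tsum fun z => mul_le_mul' le_rfl (h z y)

theorem bubble_le {p : ℝ} (h0 : 0 ≤ p) (h1 : p ≤ 1 / 2) (x y : V) :
    kmul (G.tK p) (G.tK p) x y ≤ 1 + Qt G p := by
  have h1' : p ≤ 1 := by linarith
  have h2 : kmul (G.tK p) (G.tK p) x y ≤
      ∑' z, (((if x = z then 1 else 0) * G.tK p z y) + kmul (G.pK p) (G.tK p) x z * G.tK p z y) := by
    have h3 : kmul (G.tK p) (G.tK p) x y = ∑' z, G.tK p x z * G.tK p z y := rfl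
    rw [h3]
    refine ENNReal.tsum_le_tsum fun z => ?_
    rw [← add_mul]
    exact mul_le_mul' (tK_le G h0 h1 x z) le_rfl
  refine h2.trans ?_
  rw [ENNReal.tsum_add]
  refine add_le_add ?_ ?_
  · rw [tsum_eq_single x]
    · rw [if_pos rfl, one_mul]
      unfold PG.tK
      rw [← ENNReal.ofReal_one]
      exact ENNReal.ofReal_le_ofReal (T.tau_le_one G h0 h1' x y)
    · intro z hz
      rw [if_neg (fun h => hz h.symm), zero_mul]
  · have h4 : ∑' z, kmul (G.pK p) (G.tK p) x z * G.tK p z y =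
        kmul (kmul (G.pK p) (G.tK p)) (G.tK p) x y := rfl
    rw [h4, kmul_assoc']
    refine (bub_mono (G.pK p) (fun a b => ?_) x y).trans
      (le_iSup₂ (f := fun a b => kmul (G.pK p)
        (kmul (G.tK p) (kmul (G.tK p) (kmul (G.tK p) (G.tK p)))) a b) x y)
    exact (le_kmul_tK G p (kmul (G.tK p) (G.tK p)) a b).trans
      (le_kmul_tK G p (kmul (G.tK p) (kmul (G.tK p) (G.tK p))) a b)

theorem sum_sq_le {p : ℝ} (h0 : 0 ≤ p) (h1 : p ≤ 1 / 2) (hQ : Qt G p ≤ 1) (Y : Finset V) (x : V) :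
    ∑ y ∈ Y, G.tau p x y ^ 2 ≤ 2 := by
  have h1' : p ≤ 1 := by linarith
  rw [← ENNReal.ofReal_le_ofReal_iff (by norm_num : (0 : ℝ) ≤ 2),
    ENNReal.ofReal_sum_of_nonneg fun y _ => sq_nonneg _]
  have h2 : ∀ y, ENNReal.ofReal (G.tau p x y ^ 2) = G.tK p x y * G.tK p y x := by
    intro y
    unfold PG.tK
    rw [T.tau_symm G p y x, ← ENNReal.ofReal_mul (T.tau_nonneg G h0 h1' x y), pow_two]
  rw [Finset.sum_congr rfl fun y _ => h2 y]
  have h3 : ∑ y ∈ Y, G.tK p x y * G.tK p y x ≤ kmul (G.tK p) (G.tK p) x x :=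
    ENNReal.sum_le_tsum (f := fun y => G.tK p x y * G.tK p y x) Y
  refine h3.trans ((bubble_le G h0 h1 x x).trans ?_)
  have h4 : (1 : ENNReal) + Qt G p ≤ 1 + 1 := add_le_add le_rfl hQ
  refine h4.trans (le_of_eq ?_)
  rw [ENNReal.ofReal_ofNat, one_add_one_eq_two]

end IPC.DP
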