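import Pool.Agent.Lib.MP_25e40f_pr.T.Arm
import Pool.Agent.Lib.MP_25e40f_pr.T.Iso
import Pool.Agent.Lib.MP_25e40f_pr.T.Cross
import Pool.Agent.Lib.MP_25e40f_pr.Defs2
import Pool.Agent.Lib.MP_25e40f_pr.G.SlabB

/-!
# MP_25e40f_pr, stream DP (consequences D' of the bootstrap): definitions

`Boot n₀ C₀` is the output of the bootstrap (theorem D), `Uniq d` the output of stream U.
`Qt G p` is `sup P τ⁴`.
-/

set_option autoImplicit false

noncomputable section

open Finset Filter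
open scoped Classical

namespace IPC.DP

/-- `sup P τ⁴` -/
def Qt {V : Type} [DecidableEq V] (G : PG V) (p : ℝ) : ENNReal :=
  ksup (kmul (G.pK p) (kmul (G.tK p) (kmul (G.tK p) (kmul (G.tK p) (G.tK p)))))

/-- the output of the bootstrap on `ℤⁿ × H` -/
def Boot (n₀ : ℕ) (C₀ : ℝ) : Prop := ∀ n, n₀ ≤ n → ∀ (ι : Type) [Fintype ι]
    [DecidableEq ι] [Nonempty ι] (H : SimpleGraph ι),
    (∀ i, (Finset.univ.filter fun j => H.Adj i j).card ≤ 2) →
    ∀ p : ℝ, 0 ≤ p → p < (Wg n ι H).pc → p ≤ 1 / 2 →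
      2 * n * p ≤ 1 + C₀ / Real.sqrt n ∧ Qt (Wg n ι H) p ≤ ENNReal.ofReal (C₀ / Real.sqrt n)

/-- uniqueness of the infinite cluster: above the critical point the two point function is bounded
from below -/
def Uniq (d : ℕ) : Prop := ∀ p : ℝ, 0 < p → p < 1 → ¬ (Zg d).NoPerc p →
  ∃ c : ℝ, 0 < c ∧ ∀ y, c ≤ (Zg d).tau p 0 y

end IPC.DP
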