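import Pool.Agent.Lib.MP_25e40f_pr.DP.Defs
import Pool.Agent.Lib.MP_25e40f_pr.G.EndB

/-!
# MP_25e40f_pr, stream DP, file Iso: graph isomorphisms, `ℤᵈ = ℤᵈ × {point}` (JOB Iso)

* `noPerc_iso`: `noPerc_iff` (stream G: `NoPerc p` iff `nu {the cluster of x at level p is infinite} = 0` for all `x`, for
  `0 ≤ p ≤ 1`) for both graphs, and `nu_map_inj` for the injective map `φ`: with `U' e = U (Sym2.map φ e)` one has
  `Con G.nb univ p U' a b ↔ Con G'.nb univ p U (φ a) (φ b)` (both directions by induction on the path, `φ` is bijective and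
  `hnb`), so `clu G'.nb univ p U (φ x) = φ '' clu G.nb univ p U' x`; `meas_clu_inf`, `Measure.map_apply`.
  (Model: `slab_embed` in G/SlabB.lean.) `V`, `V'` countable.
* `W1_nb`: in `Wg d Unit ⊥` the neighbours of `(x, ())` are the `(y, ())`, `y ∈ nbZ d x`.
* `tau_W1`: `T.tau_iso` with the equivalence `x ↦ (x, ())`. `noPerc_W1`: `noPerc_iso`. `pc_W1`: the two sets of
  the suprema coincide.
-/

set_option autoImplicit false
set_option linter.unusedSectionVars false

noncomputable section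

open Finset Filter MeasureTheory
open scoped Classical

namespace IPC.DP

private theorem iso_clu {V V' : Type} [DecidableEq V] [DecidableEq V'] (G : PG V) (G' : PG V')
    (φ : V ≃ V') (hnb : ∀ a b, b ∈ G.nb a ↔ φ b ∈ G'.nb (φ a)) (p : ℝ) (U : Sym2 V' → ℝ) (x : V) :
    clu G'.nb Set.univ p U (φ x) =
      φ '' clu G.nb Set.univ p (fun e => U (Sym2.map φ e)) x := by
  ext z
  constructor
  · rintro ⟨-, h⟩
    induction h with
    | refl => exact ⟨x, ⟨Set.mem_univ _, Relation.ReflTransGen.refl⟩, rfl⟩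
    | @tail b c _ hbc ih =>
      obtain ⟨a, ha, rfl⟩ := ih
      obtain ⟨-, -, h3, h4⟩ := hbc
      refine ⟨φ.symm c, ⟨Set.mem_univ _, ha.2.tail ⟨Set.mem_univ _, Set.mem_univ _, ?_, ?_⟩⟩,
        φ.apply_symm_apply c⟩
      · rw [hnb, φ.apply_symm_apply]
        exact h3
      · show U (Sym2.map φ s(a, φ.symm c)) ≤ p
        rw [Sym2.map_mk, φ.apply_symm_apply]
        exact h4
  · rintro ⟨w, ⟨-, h⟩, rfl⟩
    refine ⟨Set.mem_univ _, ?_⟩
    induction h with
    | refl => exact Relation.ReflTransGen.refl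
    | tail _ hbc ih =>
      obtain ⟨-, -, h3, h4⟩ := hbc
      exact ih.tail ⟨Set.mem_univ _, Set.mem_univ _, (hnb _ _).1 h3, h4⟩

private theorem iso_inf {V V' : Type} [DecidableEq V] [DecidableEq V'] [Countable V] [Countable V']
    (G : PG V) (G' : PG V') (φ : V ≃ V') (hnb : ∀ a b, b ∈ G.nb a ↔ φ b ∈ G'.nb (φ a)) (p : ℝ)
    (x : V) : nu V' {U | (clu G'.nb Set.univ p U (φ x)).Infinite} =
      nu V {U | (clu G.nb Set.univ p U x).Infinite} := by
  have hT : Measurable fun (U : Sym2 V' → ℝ) (e : Sym2 V) => U (Sym2.map φ e) :=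
    measurable_pi_iff.2 fun e => measurable_pi_apply _
  have h1 : {U : Sym2 V' → ℝ | (clu G'.nb Set.univ p U (φ x)).Infinite} =
      (fun (U : Sym2 V' → ℝ) (e : Sym2 V) => U (Sym2.map φ e)) ⁻¹'
        {U : Sym2 V → ℝ | (clu G.nb Set.univ p U x).Infinite} := by
    ext U
    change (clu G'.nb Set.univ p U (φ x)).Infinite ↔
      (clu G.nb Set.univ p (fun e => U (Sym2.map φ e)) x).Infinite
    rw [iso_clu G G' φ hnb p U x, Set.infinite_image_iff φ.injective.injOn]
  have h5 : MeasurableSet {U : Sym2 V → ℝ | (clu G.nb Set.univ p U x).Infinite} :=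
    meas_clu_inf G Set.univ p x
  rw [h1, ← Measure.map_apply hT h5, nu_map_inj _ φ.injective]

/-- the point `x` of the product with a one point graph -/
private def iso_e (d : ℕ) : (Fin d → ℤ) ≃ (Fin d → ℤ) × Unit where
  toFun x := (x, ())
  invFun w := w.1
  left_inv _ := rfl
  right_inv _ := rfl

theorem noPerc_iso {V V' : Type} [DecidableEq V] [DecidableEq V'] [Countable V] [Countable V']
    (G : PG V) (G' : PG V') (φ : V ≃ V') (hnb : ∀ a b, b ∈ G.nb a ↔ φ b ∈ G'.nb (φ a)) {p : ℝ}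
    (h0 : 0 ≤ p) (h1 : p ≤ 1) : G.NoPerc p ↔ G'.NoPerc p := by
  rw [noPerc_iff G h0 h1, noPerc_iff G' h0 h1]
  constructor
  · intro h x'
    have h2 := iso_inf G G' φ hnb p (φ.symm x')
    rw [φ.apply_symm_apply] at h2
    rw [h2]
    exact h _
  · intro h x
    rw [← iso_inf G G' φ hnb p x]
    exact h _

theorem W1_nb (d : ℕ) (x y : Fin d → ℤ) :
    (y, ()) ∈ (Wg d Unit ⊥).nb (x, ()) ↔ y ∈ nbZ d x := by
  unfold Wg
  simp only [Finset.mem_union, Finset.mem_image, Finset.mem_filter, Finset.mem_univ, true_and,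
    Prod.mk.injEq, SimpleGraph.bot_adj, and_true, exists_eq_right, false_and, exists_false,
    or_false]

theorem tau_W1 (d : ℕ) {p : ℝ} (h0 : 0 ≤ p) (h1 : p ≤ 1) (x y : Fin d → ℤ) :
    (Wg d Unit ⊥).tau p (x, ()) (y, ()) = (Zg d).tau p x y := by
  exact T.tau_iso (Zg d) (Wg d Unit ⊥) h0 h1 (iso_e d) (fun a b => (W1_nb d a b).symm) x y

theorem noPerc_W1 (d : ℕ) {p : ℝ} (h0 : 0 ≤ p) (h1 : p ≤ 1) :
    (Wg d Unit ⊥).NoPerc p ↔ (Zg d).NoPerc p := by
  exact (noPerc_iso (Zg d) (Wg d Unit ⊥) (iso_e d) (fun a b => (W1_nb d a b).symm) h0 h1).symm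

theorem pc_W1 (d : ℕ) : (Wg d Unit ⊥).pc = (Zg d).pc := by
  unfold PG.pc
  refine congrArg sSup (Set.ext fun p => ?_)
  constructor
  · rintro ⟨h0, h1, h2⟩
    exact ⟨h0, h1, (noPerc_W1 d h0 h1).1 h2⟩
  · rintro ⟨h0, h1, h2⟩
    exact ⟨h0, h1, (noPerc_W1 d h0 h1).2 h2⟩

end IPC.DP
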