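import Pool.Agent.Lib.MP_25e40f_pr.DP.Defs

/-!
# MP_25e40f_pr, stream DP, file Sml: small `p` (JOB Sml)

* `nbZ_card`: `(nbZ d x).card ≤ 2 * d` (image of `Fin d × Bool`).
* `tau_small`: induction on `k = nrm (x - y)`, for all `x` (with `k ≤ nrm (x - y)` in the induction statement:
  `∀ k x y, k ≤ nrm (x - y) → τ(x,y) ≤ (1/2)^k`). `k = 0`: `τ ≤ 1`. `k + 1`: `x ≠ y`, `T.tau_step` gives
  `τ(x,y) ≤ ∑_{z ∈ nb x} p τ(z,y) ≤ 2 d p (1/2)^k`, because `nrm (z - y) ≥ nrm (x - y) - 1 ≥ k` (`mem_nbZ`: one coordinate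
  changes by `± 1`); `2 d p = 1/2`.
* `arm_le_sum`: `G.arm p x r` is the probability of a finite union of the events `Conn ω x y`,
  `y ∈ G.Lam (r+1) \ G.Lam r` (union bound, `A/Prb` or `T.sp_exists_le`), each of probability `G.tauD .. ≤ G.tau p x y`
  (`T.tauD_le_tau`).
* `noPerc_small`: for `r` large, `y ∉ (Zg d).Lam r` means `nrm y ≥ r + 1`, so `nrm (x - y) ≥ r + 1 - nrm x`;
  `((Zg d).Lam (r + 1)).card = (2 r + 3)^d`; so `arm ≤ (2r+3)^d (1/2)^(r + 1 - nrm x) → 0`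
  (`tendsto_pow_const_mul_const_pow_of_abs_lt_one`-type).
* `pc_pos`: `1/(4d)` is in the set whose supremum is `pc` (bounded above by `1`): `le_csSup`.
-/

set_option autoImplicit false
set_option linter.unusedSectionVars false

noncomputable section

open Finset Filter
open scoped Classical

namespace IPC.DP

theorem nbZ_card (d : ℕ) (x : Fin d → ℤ) : (nbZ d x).card ≤ 2 * d := by
  unfold nbZ
  refine Finset.card_image_le.trans ?_
  rw [Finset.card_univ, Fintype.card_prod, Fintype.card_fin, Fintype.card_bool]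
  omega

private theorem sml_nrm_zero {d : ℕ} : nrm (0 : Fin d → ℤ) = 0 := by
  unfold nrm
  apply Nat.le_zero.1
  apply Finset.sup_le
  intro i _
  simp

private theorem sml_le_nrm {d : ℕ} (x : Fin d → ℤ) (i : Fin d) : (x i).natAbs ≤ nrm x :=
  Finset.le_sup (f := fun i => (x i).natAbs) (Finset.mem_univ i)

private theorem sml_nrm_nb {d : ℕ} {x z : Fin d → ℤ} (hz : z ∈ nbZ d x) (y : Fin d → ℤ) :
    nrm (x - y) ≤ nrm (z - y) + 1 := by
  rw [mem_nbZ] at hz
  obtain ⟨i, s, hs, rfl⟩ := hz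
  unfold nrm
  apply Finset.sup_le
  intro j _
  have h1 := sml_le_nrm (Function.update x i (x i + s) - y) j
  unfold nrm at h1
  refine le_trans ?_ (Nat.add_le_add_right h1 1)
  rw [Pi.sub_apply, Pi.sub_apply]
  by_cases hj : j = i
  · subst hj
    rw [Function.update_self]
    rcases hs with rfl | rfl <;> omega
  · rw [Function.update_of_ne hj]
    omega

private theorem sml_half {d : ℕ} (hd : 1 ≤ d) : 0 ≤ (1 / (4 * d) : ℝ) ∧ (1 / (4 * d) : ℝ) ≤ 1 / 2 := by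
  have h : (1 : ℝ) ≤ (d : ℝ) := by exact_mod_cast hd
  constructor
  · positivity
  · rw [div_le_div_iff₀ (by linarith) (by norm_num)]
    linarith

private theorem sml_tau {d : ℕ} (hd : 1 ≤ d) (k : ℕ) : ∀ x y : Fin d → ℤ, k ≤ nrm (x - y) →
    (Zg d).tau (1 / (4 * d)) x y ≤ (1 / 2) ^ k := by
  obtain ⟨h0, h1⟩ := sml_half hd
  have h1' : (1 / (4 * d) : ℝ) ≤ 1 := by linarith
  have hd1 : (1 : ℝ) ≤ (d : ℝ) := by exact_mod_cast hd
  induction k with
  | zero =>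
    intro x y _
    rw [pow_zero]
    exact T.tau_le_one (Zg d) h0 h1' x y
  | succ k ih =>
    intro x y h
    have hne : x ≠ y := by
      rintro rfl
      rw [sub_self, sml_nrm_zero] at h
      omega
    have hst := T.tau_step (Zg d) h0 h1 x y
    rw [if_neg hne, zero_add] at hst
    refine hst.trans ?_
    have hb : ∀ z ∈ (Zg d).nb x, (1 / (4 * d) : ℝ) * (Zg d).tau (1 / (4 * d)) z y ≤
        (1 / (4 * d) : ℝ) * (1 / 2) ^ k := by
      intro z hz
      apply mul_le_mul_of_nonneg_left _ h0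
      apply ih
      have := sml_nrm_nb (y := y) (show z ∈ nbZ d x from hz)
      omega
    refine (Finset.sum_le_sum hb).trans ?_
    rw [Finset.sum_const, nsmul_eq_mul]
    have hc : (((Zg d).nb x).card : ℝ) ≤ 2 * d := by
      exact_mod_cast nbZ_card d x
    refine (mul_le_mul_of_nonneg_right hc (by positivity)).trans (le_of_eq ?_)
    have hd0 : (d : ℝ) ≠ 0 := by linarith
    rw [pow_succ]
    field_simp
    ring

theorem tau_small {d : ℕ} (hd : 1 ≤ d) (x y : Fin d → ℤ) :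
    (Zg d).tau (1 / (4 * d)) x y ≤ (1 / 2) ^ nrm (x - y) :=
  sml_tau hd _ x y le_rfl

theorem arm_le_sum {V : Type} [DecidableEq V] (G : PG V) {p : ℝ} (h0 : 0 ≤ p) (h1 : p ≤ 1) (x : V)
    (r : ℕ) : G.arm p x r ≤ ∑ y ∈ G.Lam (r + 1) \ G.Lam r, G.tau p x y := by
  unfold PG.arm
  refine (Pr_exists_le h0 h1 _ _ _).trans ?_
  exact Finset.sum_le_sum fun y _ => T.tauD_le_tau G h0 h1 (G.Lam (r + 1)) x y

private theorem sml_out {d r : ℕ} {y : Fin d → ℤ} (hy : y ∉ (Zg d).Lam r) : r + 1 ≤ nrm y := by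
  by_contra hc
  apply hy
  show y ∈ Fintype.piFinset fun _ : Fin d => Finset.Icc (-(r : ℤ)) r
  rw [Fintype.mem_piFinset]
  intro i
  have h1 := sml_le_nrm y i
  rw [Finset.mem_Icc]
  omega

private theorem sml_nrm_tri {d : ℕ} (x y : Fin d → ℤ) : nrm y ≤ nrm (x - y) + nrm x := by
  have h : ∀ i, (y i).natAbs ≤ nrm (x - y) + nrm x := by
    intro i
    have h1 := sml_le_nrm (x - y) i
    have h2 := sml_le_nrm x i
    rw [Pi.sub_apply] at h1
    omega
  exact Finset.sup_le fun i _ => h i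

private theorem sml_card (d r : ℕ) : ((Zg d).Lam (r + 1)).card = (2 * r + 3) ^ d := by
  show (Fintype.piFinset fun _ : Fin d => Finset.Icc (-((r + 1 : ℕ) : ℤ)) ((r + 1 : ℕ) : ℤ)).card = _
  rw [Fintype.card_piFinset_const, Int.card_Icc]
  congr 1
  push_cast
  omega

private theorem sml_pow (m k : ℕ) : (1 / 2 : ℝ) ^ (k - m) ≤ 2 ^ m * (1 / 2) ^ k := by
  have h2 : (2 : ℝ) ^ m * (1 / 2) ^ m = 1 := by
    rw [← mul_pow]
    norm_num
  rcases le_total m k with h | h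
  · have e : (1 / 2 : ℝ) ^ k = (1 / 2) ^ m * (1 / 2) ^ (k - m) := by
      rw [← pow_add]
      congr 1
      omega
    rw [e, ← mul_assoc, h2, one_mul]
  · have e : k - m = 0 := by omega
    rw [e, pow_zero]
    have e2 : (1 / 2 : ℝ) ^ m ≤ (1 / 2) ^ k :=
      pow_le_pow_of_le_one (by norm_num) (by norm_num) h
    calc (1 : ℝ) = 2 ^ m * (1 / 2) ^ m := h2.symm
      _ ≤ _ := mul_le_mul_of_nonneg_left e2 (by positivity)

private theorem sml_arm {d : ℕ} (hd : 1 ≤ d) (x : Fin d → ℤ) (r : ℕ) :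
    (Zg d).arm (1 / (4 * d)) x r ≤ (3 ^ d * 2 ^ nrm x) * (((r + 1 : ℕ) : ℝ) ^ d * (1 / 2) ^ (r + 1)) := by
  obtain ⟨h0, h1⟩ := sml_half hd
  have h1' : (1 / (4 * d) : ℝ) ≤ 1 := by linarith
  refine (arm_le_sum (Zg d) h0 h1' x r).trans ?_
  have hb : ∀ y ∈ (Zg d).Lam (r + 1) \ (Zg d).Lam r, (Zg d).tau (1 / (4 * d)) x y ≤
      2 ^ nrm x * (1 / 2) ^ (r + 1) := by
    intro y hy
    rw [Finset.mem_sdiff] at hy
    have hy1 := sml_out hy.2
    have hy2 := sml_nrm_tri x y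
    refine (sml_tau hd (r + 1 - nrm x) x y (by omega)).trans (sml_pow _ _)
  refine (Finset.sum_le_sum hb).trans ?_
  rw [Finset.sum_const, nsmul_eq_mul]
  have hc : (((Zg d).Lam (r + 1) \ (Zg d).Lam r).card : ℝ) ≤ (3 * ((r + 1 : ℕ) : ℝ)) ^ d := by
    have hc1 : ((Zg d).Lam (r + 1) \ (Zg d).Lam r).card ≤ (2 * r + 3) ^ d :=
      (Finset.card_le_card Finset.sdiff_subset).trans (le_of_eq (sml_card d r))
    have hc2 : (2 * r + 3) ^ d ≤ (3 * (r + 1)) ^ d := Nat.pow_le_pow_left (by omega) d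
    have := hc1.trans hc2
    exact_mod_cast this
  refine (mul_le_mul_of_nonneg_right hc (by positivity)).trans (le_of_eq ?_)
  rw [mul_pow]
  ring

theorem noPerc_small {d : ℕ} (hd : 1 ≤ d) : (Zg d).NoPerc (1 / (4 * d)) := by
  obtain ⟨h0, h1⟩ := sml_half hd
  have h1' : (1 / (4 * d) : ℝ) ≤ 1 := by linarith
  intro x
  have ht : Tendsto (fun r : ℕ => (((r + 1 : ℕ) : ℝ) ^ d * (1 / 2) ^ (r + 1))) atTop (nhds 0) :=
    (tendsto_pow_const_mul_const_pow_of_abs_lt_one d (r := (1 / 2 : ℝ))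
      (by rw [abs_of_pos (by norm_num)]; norm_num)).comp (tendsto_add_atTop_nat 1)
  have ht2 := ht.const_mul ((3 : ℝ) ^ d * 2 ^ nrm x)
  rw [mul_zero] at ht2
  exact squeeze_zero (fun r => T.arm_nonneg (Zg d) h0 h1' x r) (fun r => sml_arm hd x r) ht2

theorem pc_pos {d : ℕ} (hd : 1 ≤ d) : 0 < (Zg d).pc := by
  obtain ⟨h0, h1⟩ := sml_half hd
  have h1' : (1 / (4 * d) : ℝ) ≤ 1 := by linarith
  have hd1 : (1 : ℝ) ≤ (d : ℝ) := by exact_mod_cast hd
  have hpos : (0 : ℝ) < 1 / (4 * d) := by positivity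
  refine lt_of_lt_of_le hpos ?_
  apply le_csSup
  · exact ⟨1, fun q hq => hq.2.1⟩
  · exact ⟨h0, h1', noPerc_small hd⟩

end IPC.DP
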