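import Pool.Agent.Lib.MP_25e40f_pr.DP.Bub
import Pool.Agent.Lib.MP_25e40f_pr.DP.Iso
import Pool.Agent.Lib.MP_25e40f_pr.DP.Sml

/-!
# MP_25e40f_pr, stream DP, file Pcq: the critical point (JOBS PcqA, PcqB)

JOB PcqA: `exists_good`: from `Boot n₀ C₀` take `n₁ ≥ max n₀ 5` such that `C₀ / √n ≤ 1` for all `n ≥ n₁` (`√n ≥ |C₀|`,
i.e. `n₁ ≥ C₀²`). Then for `n ≥ n₁`, `p < pc(W)`, `p ≤ 1/2`: `2 n p ≤ 2`, i.e. `p ≤ 1/n ≤ 1/5 < 1/4`, and `Qt ≤ 1`.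
`pcW_le`: if `(Wg n ι H).pc > 1/4` there is `p` with `1/4 < p < min pc (1/2)`: contradiction to `p ≤ 1/n < 1/4`.
`pcZ_le`: `pc_W1`, the case `ι = Unit`, `H = ⊥` (no neighbours).
`sqZ`: for `p < pc(Z^d)` (so `p ≤ 1/4 ≤ 1/2`): `sum_sq_le` for `Wg d Unit ⊥`, transported by `tau_W1` (`Y.image (·, ())`).

JOB PcqB: `sqZ_pc`: the inequality of `sqZ` passes to `p = pc` by left continuity (`T.tau_leftcont`, `pc > 0`:
`tendsto_finset_sum`, `le_of_tendsto`, the filter `𝓝[<] pc` is not trivial and eventually `0 ≤ p < pc`).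
`noPerc_pc`: if not, `Uniq` gives `c > 0` with `c ≤ τ_pc(0, y)` for all `y`; the finite sets `Y` have unbounded cardinality
(`Fin d → ℤ` is infinite for `d ≥ 1`: e.g. `Infinite.exists_subset_card_eq`), and `∑_{y ∈ Y} τ² ≥ Y.card * c²`: contradiction with `≤ 2`.
-/

set_option autoImplicit false
set_option linter.unusedSectionVars false

noncomputable section

open Finset Filter
open scoped Classical

namespace IPC.DP

/-- the conclusions of the bootstrap which are used -/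
def Good (n₁ : ℕ) : Prop := 5 ≤ n₁ ∧ ∀ n, n₁ ≤ n → ∀ (ι : Type) [Fintype ι]
    [DecidableEq ι] [Nonempty ι] (H : SimpleGraph ι),
    (∀ i, (Finset.univ.filter fun j => H.Adj i j).card ≤ 2) →
    ∀ p : ℝ, 0 ≤ p → p < (Wg n ι H).pc → p ≤ 1 / 2 → p ≤ 1 / n ∧ Qt (Wg n ι H) p ≤ 1

theorem exists_good {n₀ : ℕ} {C₀ : ℝ} (h : Boot n₀ C₀) : ∃ n₁, n₀ ≤ n₁ ∧ Good n₁ := by
  refine ⟨max (max n₀ 5) ⌈C₀ ^ 2⌉₊, (le_max_left _ _).trans (le_max_left _ _),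
    (le_max_right _ _).trans (le_max_left _ _), ?_⟩
  intro n hn ι _ _ _ H hH p h0 hp h1
  have hn0 : n₀ ≤ n := ((le_max_left _ _).trans (le_max_left _ _)).trans hn
  have hn5 : 5 ≤ n := ((le_max_right _ _).trans (le_max_left _ _)).trans hn
  have hnC : C₀ ^ 2 ≤ (n : ℝ) :=
    (Nat.le_ceil _).trans (by exact_mod_cast (le_max_right _ _).trans hn)
  have hnpos : (0 : ℝ) < n := by
    have : 0 < n := by omega
    exact_mod_cast this
  have hs : 0 < Real.sqrt n := Real.sqrt_pos.2 hnpos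
  have hC : C₀ / Real.sqrt n ≤ 1 := by
    rw [div_le_one hs]
    exact (le_abs_self C₀).trans (Real.abs_le_sqrt hnC)
  obtain ⟨h2, h3⟩ := h n hn0 ι H hH p h0 hp h1
  refine ⟨?_, ?_⟩
  · rw [le_div_iff₀ hnpos]
    nlinarith
  · refine h3.trans ?_
    rw [← ENNReal.ofReal_one]
    exact ENNReal.ofReal_le_ofReal hC

theorem pcW_le {n₁ : ℕ} (h : Good n₁) {n : ℕ} (hn : n₁ ≤ n) (ι : Type) [Fintype ι]
    [DecidableEq ι] [Nonempty ι] (H : SimpleGraph ι)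
    (hH : ∀ i, (Finset.univ.filter fun j => H.Adj i j).card ≤ 2) : (Wg n ι H).pc ≤ 1 / 4 := by
  by_contra hcon
  rw [not_le] at hcon
  have h1 : 1 / 4 < min (Wg n ι H).pc (1 / 2) := lt_min hcon (by norm_num)
  have h2 : min (Wg n ι H).pc (1 / 2) ≤ (Wg n ι H).pc := min_le_left _ _
  have h3 : min (Wg n ι H).pc (1 / 2) ≤ 1 / 2 := min_le_right _ _
  have h4 := (h.2 n hn ι H hH ((1 / 4 + min (Wg n ι H).pc (1 / 2)) / 2) (by linarith) (by linarith)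
    (by linarith)).1
  have hn5 : (5 : ℝ) ≤ n := by exact_mod_cast h.1.trans hn
  have h5 : (1 : ℝ) / n ≤ 1 / 5 := one_div_le_one_div_of_le (by norm_num) hn5
  linarith

theorem pcZ_le {n₁ : ℕ} (h : Good n₁) {d : ℕ} (hd : n₁ ≤ d) : (Zg d).pc ≤ 1 / 4 := by
  rw [← pc_W1 d]
  refine pcW_le h hd Unit ⊥ fun i => ?_
  exact (Finset.card_le_univ _).trans (by simp)

theorem sqZ {n₁ : ℕ} (h : Good n₁) {d : ℕ} (hd : n₁ ≤ d) {p : ℝ} (h0 : 0 ≤ p) (hp : p < (Zg d).pc)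
    (Y : Finset (Fin d → ℤ)) (x : Fin d → ℤ) : ∑ y ∈ Y, (Zg d).tau p x y ^ 2 ≤ 2 := by
  have hq := pcZ_le h hd
  have h1 : p ≤ 1 / 2 := by linarith
  have hp1 : p ≤ 1 := by linarith
  have hp' : p < (Wg d Unit ⊥).pc := by
    rw [pc_W1 d]
    exact hp
  have hQ := (h.2 d hd Unit ⊥ (fun i => (Finset.card_le_univ _).trans (by simp)) p h0 hp' h1).2
  have h2 := sum_sq_le (Wg d Unit ⊥) h0 h1 hQ (Y.image fun y => (y, ())) (x, ())
  rw [Finset.sum_image (fun a _ b _ hab => (Prod.mk.inj hab).1)] at h2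
  simp only [tau_W1 d h0 hp1] at h2
  exact h2

theorem sqZ_pc {n₁ : ℕ} (h : Good n₁) {d : ℕ} (hd : n₁ ≤ d)
    (Y : Finset (Fin d → ℤ)) (x : Fin d → ℤ) : ∑ y ∈ Y, (Zg d).tau (Zg d).pc x y ^ 2 ≤ 2 := by
  have hd1 : 1 ≤ d := le_trans (by norm_num) (h.1.trans hd)
  have hpos := pc_pos hd1
  have hle := IPC.T.pc_le_one (Zg d)
  have ht : Tendsto (fun p => ∑ y ∈ Y, (Zg d).tau p x y ^ 2) (nhdsWithin (Zg d).pc (Set.Iio (Zg d).pc))
      (nhds (∑ y ∈ Y, (Zg d).tau (Zg d).pc x y ^ 2)) :=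
    tendsto_finsetSum _ fun y _ => (IPC.T.tau_leftcont (Zg d) hpos hle x y).pow 2
  refine le_of_tendsto ht ?_
  have h1 : ∀ᶠ p in nhdsWithin (Zg d).pc (Set.Iio (Zg d).pc), p < (Zg d).pc := self_mem_nhdsWithin
  have h2 : ∀ᶠ p in nhdsWithin (Zg d).pc (Set.Iio (Zg d).pc), (0 : ℝ) < p :=
    eventually_nhdsWithin_of_eventually_nhds (eventually_gt_nhds hpos)
  filter_upwards [h1, h2] with p hp1 hp2
  exact sqZ h hd hp2.le hp1 Y x

theorem noPerc_pc {n₁ : ℕ} (h : Good n₁) {d : ℕ} (hd : n₁ ≤ d) (hU : Uniq d) :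
    (Zg d).NoPerc (Zg d).pc := by
  have hd1 : 1 ≤ d := le_trans (by norm_num) (h.1.trans hd)
  have hpos := pc_pos hd1
  have hle := pcZ_le h hd
  by_contra hn
  obtain ⟨c, hc, hcy⟩ := hU (Zg d).pc hpos (by linarith) hn
  obtain ⟨N, hN⟩ := exists_nat_gt (2 / c ^ 2)
  haveI : Nonempty (Fin d) := ⟨⟨0, hd1⟩⟩
  obtain ⟨Y, hY⟩ := Infinite.exists_subset_card_eq (Fin d → ℤ) N
  have h1 := sqZ_pc h hd Y 0
  have h2 : (Y.card : ℝ) * c ^ 2 ≤ ∑ y ∈ Y, (Zg d).tau (Zg d).pc 0 y ^ 2 := by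
    rw [← nsmul_eq_mul]
    exact Finset.card_nsmul_le_sum _ _ _ fun y _ => pow_le_pow_left₀ hc.le (hcy y) 2
  rw [hY] at h2
  rw [div_lt_iff₀ (pow_pos hc 2)] at hN
  linarith

end IPC.DP
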