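import Pool.Agent.Lib.MP_25e40f_pr.DP.Pcq

/-!
# MP_25e40f_pr, stream DP, file Slb: slabs percolate above the critical point (JOBS SlbA, SlbB)

JOB SlbA: `tauD_inj`: `G'.ein (D.image φ) = (G.ein D).image (Sym2.map φ)` (as in `T.ein_iso`, only the injectivity of `φ` and
`hnb` are used), `T.Pr_map`, `Conn_image` (model: `T.tauD_iso`).
`tau_slab`: `D` a finite set of vertices of `ℤⁿ⁺¹`. Let `r` be such that `|z 0| ≤ r` for all `z ∈ D`, `L = 2 r + 1`,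
`ψ = slabBb_psi 0 1 y₀ : (Fin n → ℤ) × Fin L → (Fin (n+1) → ℤ)` (file G/SlabB, with `i = 0`, `σ = 1`,
`y₀ = Function.update 0 0 (-r)`, i.e. `y₀ 0 = -r` and `0` elsewhere): by `slabBb_range` the range of `ψ` contains `D`
(`-r ≤ z 0 < -r + L`); `slabBb_inj`, `slabBb_nb`. Let `θ` be a right inverse of `ψ` on `D`
(`θ z = if h : ∃ w, ψ w = z then h.choose else arbitrary`), `D' = D.image θ`, so `D = D'.image ψ` and for `x, y ∈ D`:
`(Zg (n+1)).tauD p D x y = W.tauD p D' (θ x) (θ y) ≤ W.tau p (θ x) (θ y)` (`tauD_inj`, `T.tauD_le_tau`); `θ` is injective on `D`.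
JOB SlbB: `path_deg`: in `SimpleGraph.pathGraph L` every vertex has at most two neighbours
(`SimpleGraph.pathGraph_adj`: `j = i ± 1`).
`slab_perc`: suppose that `(Wg n (Fin L) path).NoPerc p` for all `L ≥ 1`. Then `p ≤ pc(W_L)` (`le_csSup`).
`pc(Z^(n+1)) ≤ 1/4` (`pcZ_le`); choose `p''` with `pc < p'' < min p (1/2)`. `Good` for `n` and `W_L`: `Qt (W_L) p'' ≤ 1`, so
`sum_sq_le` holds for `W_L`. For a finite `Y` and any finite `D ⊇ Y ∪ {0}`: `∑_{y ∈ Y} τ_D(0,y)² ≤ ∑_{y ∈ Y} τ_{W_L}(θ 0, θ y)² ≤ 2`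
(`tau_slab`; the sum over `Y` is a sum over `Y.image θ`, `θ` injective on `Y`). With `D = Lam r`, `r → ∞`
(`T.tau_tendsto`): `∑_{y ∈ Y} τ_{p''}(0,y)² ≤ 2`. `not_noPerc_of_gt`: `p'' > pc` so not `NoPerc p''`
(definition of the supremum: `NoPerc p''` would give `p'' ≤ pc`). `Uniq` gives `c > 0`, `τ_{p''}(0,y) ≥ c` for all `y`:
contradiction as in `noPerc_pc`.
-/

set_option autoImplicit false
set_option linter.unusedSectionVars false

noncomputable section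

open Finset Filter
open scoped Classical

namespace IPC.DP

theorem tauD_inj {V V' : Type} [DecidableEq V] [DecidableEq V'] (G : PG V) (G' : PG V') {φ : V → V'}
    (hφ : Function.Injective φ) (hnb : ∀ a b, b ∈ G.nb a ↔ φ b ∈ G'.nb (φ a)) (p : ℝ)
    (D : Finset V) (x y : V) : G'.tauD p (D.image φ) (φ x) (φ y) = G.tauD p D x y := by
  have h1 : G'.ein (D.image φ) = (G.ein D).image (Sym2.map φ) := by
    ext e
    induction e using Sym2.ind with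
    | _ a' b' =>
      rw [T.mem_ein]
      constructor
      · rintro ⟨h1, h2, h3⟩
        obtain ⟨a, ha, rfl⟩ := Finset.mem_image.1 h2
        obtain ⟨b, hb, rfl⟩ := Finset.mem_image.1 h3
        exact Finset.mem_image.2 ⟨s(a, b), (T.mem_ein G).2 ⟨(hnb a b).2 h1, ha, hb⟩, rfl⟩
      · intro h
        obtain ⟨e, he, h1⟩ := Finset.mem_image.1 h
        induction e using Sym2.ind with
        | _ u v =>
          rw [Sym2.map_mk] at h1
          obtain ⟨h2, h3, h4⟩ := (T.mem_ein G).1 he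
          rcases Sym2.eq_iff.1 h1 with ⟨h5, h6⟩ | ⟨h5, h6⟩
          · rw [← h5, ← h6]
            exact ⟨(hnb u v).1 h2, Finset.mem_image_of_mem φ h3, Finset.mem_image_of_mem φ h4⟩
          · rw [← h5, ← h6]
            exact ⟨(hnb v u).1 ((T.nb_comm G).1 h2), Finset.mem_image_of_mem φ h4,
              Finset.mem_image_of_mem φ h3⟩
  unfold PG.tauD
  rw [h1, T.Pr_map p _ (Sym2.map.injective hφ)]
  exact Pr_congr p _ fun ω _ => Conn_image φ hφ ω x y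

theorem tau_slab {n : ℕ} {p : ℝ} (h0 : 0 ≤ p) (h1 : p ≤ 1) (D : Finset (Fin (n + 1) → ℤ)) :
    ∃ (L : ℕ) (θ : (Fin (n + 1) → ℤ) → (Fin n → ℤ) × Fin L), 1 ≤ L ∧ Set.InjOn θ D ∧
      ∀ x ∈ D, ∀ y ∈ D, (Zg (n + 1)).tauD p D x y ≤
        (Wg n (Fin L) (SimpleGraph.pathGraph L)).tau p (θ x) (θ y) := by
  obtain ⟨r, hr⟩ : ∃ r : ℕ, ∀ z ∈ D, (z 0).natAbs ≤ r :=
    ⟨D.sup fun z => (z 0).natAbs, fun z hz => Finset.le_sup (f := fun z => (z 0).natAbs) hz⟩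
  have hex : ∀ z ∈ D, ∃ w : (Fin n → ℤ) × Fin (2 * r + 1),
      slabBb_psi (L := 2 * r + 1) 0 1 (fun _ => -(r : ℤ)) w = z := by
    intro z hz
    refine (slabBb_range (L := 2 * r + 1) 0 (Or.inl rfl) (fun _ => -(r : ℤ)) z).1 ?_
    have h2 := hr z hz
    constructor
    · show 1 * -(r : ℤ) ≤ 1 * z 0
      omega
    · show 1 * z 0 < 1 * -(r : ℤ) + ((2 * r + 1 : ℕ) : ℤ)
      push_cast
      omega
  have hψ : ∃ θ : (Fin (n + 1) → ℤ) → (Fin n → ℤ) × Fin (2 * r + 1), ∀ z ∈ D,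
      slabBb_psi (L := 2 * r + 1) 0 1 (fun _ => -(r : ℤ)) (θ z) = z := by
    refine ⟨fun z => if h : ∃ w : (Fin n → ℤ) × Fin (2 * r + 1),
      slabBb_psi (L := 2 * r + 1) 0 1 (fun _ => -(r : ℤ)) w = z then h.choose else
        (0, ⟨0, Nat.succ_pos _⟩), fun z hz => ?_⟩
    beta_reduce
    rw [dif_pos (hex z hz)]
    exact (hex z hz).choose_spec
  obtain ⟨θ, hθ⟩ := hψ
  refine ⟨2 * r + 1, θ, Nat.le_add_left 1 _, ?_, ?_⟩
  · intro x hx y hy hxy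
    rw [← hθ x hx, ← hθ y hy, hxy]
  · intro x hx y hy
    have hD : (D.image θ).image (slabBb_psi (L := 2 * r + 1) 0 1 (fun _ => -(r : ℤ))) = D := by
      ext z
      rw [Finset.mem_image]
      constructor
      · rintro ⟨w, hw, rfl⟩
        obtain ⟨z, hz, rfl⟩ := Finset.mem_image.1 hw
        rw [hθ z hz]
        exact hz
      · intro hz
        exact ⟨θ z, Finset.mem_image_of_mem θ hz, hθ z hz⟩
    have h3 := tauD_inj (Wg n (Fin (2 * r + 1)) (SimpleGraph.pathGraph (2 * r + 1))) (Zg (n + 1))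
      (slabBb_inj (L := 2 * r + 1) 0 (Or.inl rfl) (fun _ => -(r : ℤ)))
      (fun a b => slabBb_nb 0 (Or.inl rfl) (fun _ => -(r : ℤ)) a b) p (D.image θ) (θ x) (θ y)
    rw [hD, hθ x hx, hθ y hy] at h3
    rw [h3]
    exact T.tauD_le_tau _ h0 h1 _ _ _

theorem path_deg (L : ℕ) (i : Fin L) :
    (Finset.univ.filter fun j => (SimpleGraph.pathGraph L).Adj i j).card ≤ 2 := by
  have h1 : (Finset.univ.filter fun j => (SimpleGraph.pathGraph L).Adj i j).card ≤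
      ({i.val + 1, i.val - 1} : Finset ℕ).card := by
    refine Finset.card_le_card_of_injOn (fun j => j.val) ?_ ?_
    · intro j hj
      have h2 : (SimpleGraph.pathGraph L).Adj i j := (Finset.mem_filter.1 (Finset.mem_coe.1 hj)).2
      rw [SimpleGraph.pathGraph_adj] at h2
      show j.val ∈ (({i.val + 1, i.val - 1} : Finset ℕ) : Set ℕ)
      rw [Finset.mem_coe, Finset.mem_insert, Finset.mem_singleton]
      omega
    · intro j _ k _ h
      exact Fin.ext h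
  exact h1.trans Finset.card_le_two

private theorem slbb_sum {n₁ : ℕ} (h : Good n₁) {n : ℕ} (hn : n₁ ≤ n) {p q : ℝ} (h0 : 0 ≤ q)
    (h1 : q ≤ 1 / 2) (hqp : q < p) (hp1 : p ≤ 1)
    (hno : ∀ L : ℕ, 1 ≤ L → (Wg n (Fin L) (SimpleGraph.pathGraph L)).NoPerc p)
    (Y D : Finset (Fin (n + 1) → ℤ)) (hY : Y ⊆ D) (hz : (0 : Fin (n + 1) → ℤ) ∈ D) :
    ∑ y ∈ Y, (Zg (n + 1)).tauD q D 0 y ^ 2 ≤ 2 := by
  have hq1 : q ≤ 1 := by linarith
  obtain ⟨L, θ, hL, hinj, hle⟩ := tau_slab (n := n) h0 hq1 D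
  have : Nonempty (Fin L) := ⟨⟨0, hL⟩⟩
  have hpc : p ≤ (Wg n (Fin L) (SimpleGraph.pathGraph L)).pc :=
    le_csSup ⟨1, fun x hx => hx.2.1⟩ ⟨by linarith, hp1, hno L hL⟩
  have hG := h.2 n hn (Fin L) (SimpleGraph.pathGraph L) (path_deg L) q h0
    (lt_of_lt_of_le hqp hpc) h1
  have hinjY : Set.InjOn θ Y := hinj.mono (Finset.coe_subset.2 hY)
  have h2 := sum_sq_le (Wg n (Fin L) (SimpleGraph.pathGraph L)) h0 h1 hG.2 (Y.image θ) (θ 0)
  rw [Finset.sum_image fun x hx y hy hxy => hinjY hx hy hxy] at h2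
  refine le_trans (Finset.sum_le_sum fun y hy => ?_) h2
  exact pow_le_pow_left₀ (T.tauD_nonneg _ h0 hq1 D 0 y) (hle 0 hz y (hY hy)) 2

theorem slab_perc {n₁ : ℕ} (h : Good n₁) {n : ℕ} (hn : n₁ ≤ n) (hU : Uniq (n + 1)) {p : ℝ}
    (hp : (Zg (n + 1)).pc < p) (hp1 : p ≤ 1) :
    ∃ L : ℕ, 1 ≤ L ∧ ¬ (Wg n (Fin L) (SimpleGraph.pathGraph L)).NoPerc p := by
  by_contra hcon
  have hno : ∀ L : ℕ, 1 ≤ L → (Wg n (Fin L) (SimpleGraph.pathGraph L)).NoPerc p := by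
    intro L hL
    by_contra hL2
    exact hcon ⟨L, hL, hL2⟩
  have hpc4 : (Zg (n + 1)).pc ≤ 1 / 4 := pcZ_le h (hn.trans (Nat.le_succ n))
  have hpc0 : 0 ≤ (Zg (n + 1)).pc := T.pc_nonneg _
  obtain ⟨q, hq1, hq2⟩ := exists_between (lt_min hp (by linarith : (Zg (n + 1)).pc < 1 / 2))
  have hqp : q < p := lt_of_lt_of_le hq2 (min_le_left _ _)
  have hq12 : q < 1 / 2 := lt_of_lt_of_le hq2 (min_le_right _ _)
  have hq0 : 0 < q := lt_of_le_of_lt hpc0 hq1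
  have hqle : q ≤ 1 := by linarith
  have hnot : ¬ (Zg (n + 1)).NoPerc q := by
    intro hN
    have h3 : q ≤ (Zg (n + 1)).pc := le_csSup ⟨1, fun x hx => hx.2.1⟩ ⟨hq0.le, hqle, hN⟩
    linarith
  obtain ⟨c, hc, hcy⟩ := hU q hq0 (by linarith) hnot
  have hsum : ∀ Y : Finset (Fin (n + 1) → ℤ), ∑ y ∈ Y, (Zg (n + 1)).tau q 0 y ^ 2 ≤ 2 := by
    intro Y
    have ht : Tendsto (fun r => ∑ y ∈ Y, (Zg (n + 1)).tauD q ((Zg (n + 1)).Lam r) 0 y ^ 2) atTop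
        (nhds (∑ y ∈ Y, (Zg (n + 1)).tau q 0 y ^ 2)) :=
      tendsto_finsetSum Y fun y _ => (T.tau_tendsto (Zg (n + 1)) hq0.le hqle 0 y).pow 2
    obtain ⟨r₀, hr₀⟩ := T.exists_Lam (Zg (n + 1)) (insert 0 Y)
    refine le_of_tendsto ht ?_
    filter_upwards [eventually_ge_atTop r₀] with r hr
    have h4 : insert 0 Y ⊆ (Zg (n + 1)).Lam r := hr₀.trans (T.Lam_mono _ hr)
    exact slbb_sum h hn hq0.le hq12.le hqp hp1 hno Y _
      ((Finset.subset_insert _ _).trans h4) (h4 (Finset.mem_insert_self _ _))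
  obtain ⟨N, hN⟩ := exists_nat_gt (2 / c ^ 2)
  obtain ⟨Y, hY⟩ := Infinite.exists_subset_card_eq (Fin (n + 1) → ℤ) N
  have h5 := hsum Y
  have h6 : ∑ _y ∈ Y, c ^ 2 ≤ ∑ y ∈ Y, (Zg (n + 1)).tau q 0 y ^ 2 :=
    Finset.sum_le_sum fun y _ => pow_le_pow_left₀ hc.le (hcy y) 2
  rw [Finset.sum_const, hY, nsmul_eq_mul] at h6
  rw [div_lt_iff₀ (by positivity)] at hN
  linarith

end IPC.DP
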